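import Pool.Agent.L0h38.GI.Stm3
import Pool.Agent.L0h64.GI.CEN

/-!
# Project GI2, module CE2: centralisers
-/

set_option autoImplicit false

namespace Pool.Agent.L0h3.GI

open Pool.Agent.L0h38.GI Pool.Agent.L0h29.AL Pool.Agent.L0h64.GI

theorem t_CE2 (hA : S_AMA) (hR : S_RET) : S_CE2 := by
  intro V Γ G _ v x hx hxv y hy
  obtain ⟨S, hS1, -, hSC⟩ := hA V Γ G v
  obtain ⟨-, -, -, -, -, hpi⟩ := hR V Γ G (Γ.neighborSet v) ∅
  have hvn : v ∉ Γ.neighborSet v := by simp
  have hC : ∀ x : GrP Γ G, toPi x v ≠ 1 → x ∉ S.C := by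
    intro x hx h
    rw [hSC] at h
    exact hx (hpi _ h v hvn)
  have hxT : x ∈ S.A true := by
    rw [hS1]
    exact hx
  have hconj : y⁻¹ * x * y = x := by
    rw [mul_assoc, ← hy.eq, inv_mul_cancel_left]
  obtain ⟨l, c0, hl, hc0, hyl⟩ := gd_all S y
  rw [← hS1]
  match l, hl, hyl with
  | [], hl, hyl => rw [hyl]; simpa using S.le true hc0
  | (false, s) :: l, hl, hyl =>
    exfalso
    apply key S hl hc0 hxT (hC x hxv)
    rw [← hyl, hconj]
    exact hxT
  | [(true, s)], hl, hyl =>
    have hs := (hl.1 (true, s) (by simp)).1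
    rw [hyl, List.map_cons, List.map_nil, List.prod_cons, List.prod_nil, mul_one]
    exact mul_mem hs (S.le true hc0)
  | (true, s) :: (true, t) :: l, hl, hyl =>
    exfalso
    have := hl.2
    rw [List.isChain_cons_cons] at this
    exact this.1 rfl
  | (true, s) :: (false, t) :: l, hl, hyl =>
    exfalso
    have hs : s ∈ S.A true := (hl.1 (true, s) (by simp)).1
    have hX : toPi (s⁻¹ * x * s) v ≠ 1 := by
      intro h
      apply hxv
      rw [map_mul, map_mul, map_inv, Pi.mul_apply, Pi.mul_apply, Pi.inv_apply] at h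
      have : toPi x v = toPi s v * ((toPi s v)⁻¹ * toPi x v * toPi s v) * (toPi s v)⁻¹ := by group
      rw [this, h]; group
    apply key S (rd_tail S hl) hc0 (mul_mem (mul_mem (inv_mem hs) hxT) hs) (hC _ hX)
    have h3 : ((((false, t) :: l).map Prod.snd).prod * c0)⁻¹ * (s⁻¹ * x * s) *
        ((((false, t) :: l).map Prod.snd).prod * c0) = y⁻¹ * x * y := by
      rw [hyl, List.map_cons (a := (true, s)), List.prod_cons (a := (true, s).2)]
      group
    rw [h3, hconj]
    exact hxT

end Pool.Agent.L0h3.GI
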