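import Pool.Agent.L0h38.GI.Stm3

/-!
# Project GI2, modules CNJ and INT
-/

set_option autoImplicit false

namespace Pool.Agent.L0h3.GI

open Pool.Agent.L0h38.GI

theorem t_CNJ (hR : S_RET) : S_CNJ := by
  intro V Γ G _ S T g
  have h1 := (hR V Γ G S T).1
  have h2 := (hR V Γ G S T).2.1
  have h3 := (hR V Γ G S T).2.2.1
  -- `h⁻¹ y h = ret S y`
  have key : ∀ y, g⁻¹ * y * g ∈ P Γ G S →
      (g * (ret S g)⁻¹)⁻¹ * y * (g * (ret S g)⁻¹) = ret S y := by
    intro y hy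
    have e : ret S y = ret S g * ret S (g⁻¹ * y * g) * (ret S g)⁻¹ := by
      rw [map_mul, map_mul, map_inv]; group
    rw [e, h1 _ hy]
    group
  refine ⟨⟨g * (ret S g)⁻¹, fun y hy hy' => ?_⟩, fun hall y hy => ?_⟩
  · rw [key y hy']
    exact h3 y hy
  · -- `h` commutes with `P S`
    have hc : ∀ s ∈ P Γ G S, (g * (ret S g)⁻¹)⁻¹ * s * (g * (ret S g)⁻¹) = s := by
      intro s hs
      rw [key s (hall s hs), h1 s hs]
    have hs : ret S g * (g⁻¹ * y * g) * (ret S g)⁻¹ ∈ P Γ G S :=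
      mul_mem (mul_mem (h2 g) hy) (inv_mem (h2 g))
    have h4 := hc _ hs
    have e : y = (g * (ret S g)⁻¹) * (ret S g * (g⁻¹ * y * g) * (ret S g)⁻¹) *
        (g * (ret S g)⁻¹)⁻¹ := by group
    have e2 : y = ret S g * (g⁻¹ * y * g) * (ret S g)⁻¹ := by
      conv_lhs => rw [e]
      conv_rhs => rw [← h4]
      have : ∀ (h s : GrP Γ G), h⁻¹ * s * h = s → h * s * h⁻¹ = h⁻¹ * s * h := by
        intro h s hh
        rw [hh]
        calc h * s * h⁻¹ = h * (h⁻¹ * s * h) * h⁻¹ := by rw [hh]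
          _ = s := by group
      exact this _ _ h4
    rw [e2]
    exact hs

/-- one half of INT -/
theorem int_half (hC : S_CNJ) {V W : Type} {Γ : SimpleGraph V} {Δ : SimpleGraph W}
    {G : V → Type} {H : W → Type} [∀ v, Group (G v)] [∀ w, Group (H w)] (e : GrP Γ G ≃* GrP Δ H)
    {ι : Type} (A : ι → Set V) (B : ι → Set W)
    (h : ∀ i, ∃ g, ∀ y ∈ P Γ G (A i), g⁻¹ * e y * g ∈ P Δ H (B i)) (R : Set ι) (hR : R.Finite) :
    R.Nonempty → ∃ g, ∀ y ∈ P Γ G (⋂ i ∈ R, A i), g⁻¹ * e y * g ∈ P Δ H (⋂ i ∈ R, B i) := by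
  induction R, hR using Set.Finite.induction_on with
  | empty => intro h; exact absurd h Set.not_nonempty_empty
  | insert hi hs ih =>
    rename_i a s
    intro _
    rw [Set.biInter_insert, Set.biInter_insert]
    obtain ⟨g2, hg2⟩ := h a
    rcases s.eq_empty_or_nonempty with rfl | hne
    · refine ⟨g2, fun y hy => ?_⟩
      simp only [Set.mem_empty_iff_false, Set.iInter_of_empty, Set.iInter_univ, Set.inter_univ] at hy ⊢
      exact hg2 y hy
    · obtain ⟨g1, hg1⟩ := ih hne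
      obtain ⟨k, hk⟩ := (hC W Δ H (B a) (⋂ i ∈ s, B i) (g1⁻¹ * g2)).1
      refine ⟨g1 * k, fun y hy => ?_⟩
      have hy1 := hg1 y (P_mono Set.inter_subset_right hy)
      have hy2 := hg2 y (P_mono Set.inter_subset_left hy)
      have := hk _ hy1 (by
        have e1 : (g1⁻¹ * g2)⁻¹ * (g1⁻¹ * e y * g1) * (g1⁻¹ * g2) = g2⁻¹ * e y * g2 := by group
        rw [e1]
        exact hy2)
      have e2 : (g1 * k)⁻¹ * e y * (g1 * k) = k⁻¹ * (g1⁻¹ * e y * g1) * k := by group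
      rw [e2]
      exact this

theorem t_INT (hC : S_CNJ) : S_INT := by
  intro V W _ _ Γ Δ G H _ _ _ _ e μ hμ R hR
  have hfin : R.Finite := Set.toFinite R
  obtain ⟨a, ha⟩ := int_half hC e (fun K : {K // MaxF Γ G K} => K.1) (fun K => (μ K).1)
    (fun K => by
      obtain ⟨g, hg⟩ := hμ K
      exact ⟨g, fun y hy => (hg y).1 hy⟩) R hfin hR
  obtain ⟨k, hk⟩ := int_half hC e.symm (fun K : {K // MaxF Γ G K} => (μ K).1) (fun K => K.1)
    (fun K => by
      obtain ⟨g, hg⟩ := hμ K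
      refine ⟨(e.symm g)⁻¹, fun y hy => ?_⟩
      rw [hg]
      have : g⁻¹ * e ((e.symm g)⁻¹⁻¹ * e.symm y * (e.symm g)⁻¹) * g = y := by
        rw [map_mul, map_mul, inv_inv, map_inv, e.apply_symm_apply, e.apply_symm_apply]
        group
      rw [this]
      exact hy) R hfin hR
  refine ⟨a, fun y => ⟨ha y, fun hy => ?_⟩⟩
  -- `b = e⁻¹(a) k`
  have hb : ∀ y, a⁻¹ * e y * a ∈ P Δ H (⋂ K ∈ R, (μ K).1) →
      (e.symm a * k)⁻¹ * y * (e.symm a * k) ∈ P Γ G (⋂ K ∈ R, K.1) := by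
    intro y hy
    have h1 := hk _ hy
    have : k⁻¹ * e.symm (a⁻¹ * e y * a) * k = (e.symm a * k)⁻¹ * y * (e.symm a * k) := by
      rw [map_mul, map_mul, map_inv, e.symm_apply_apply]
      group
    rw [this] at h1
    exact h1
  exact (hC V Γ G (⋂ K ∈ R, K.1) ∅ (e.symm a * k)).2 (fun y hy => hb y (ha y hy)) y (hb y hy)

end Pool.Agent.L0h3.GI
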