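import Pool.Agent.L0h38.GI.Stm3

/-!
# Project GI2, module UX: the exponents of the elements of a centraliser
-/

set_option autoImplicit false

namespace Pool.Agent.L0h3.GI

open Pool.Agent.L0h38.GI

/-- the coordinates of a retract -/
theorem toPi_ret {V : Type} {Γ : SimpleGraph V} {G : V → Type} [∀ v, Group (G v)] (S : Set V)
    (x : GrP Γ G) (v : V) : (v ∈ S → toPi (ret S x) v = toPi x v) ∧ (v ∉ S → toPi (ret S x) v = 1) := by
  constructor
  · intro hv
    have : ((Pi.evalMonoidHom G v).comp toPi).comp (ret S) = (Pi.evalMonoidHom G v).comp (toPi (Γ := Γ) (G := G)) := by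
      apply gp_ext
      intro w a
      change toPi (ret S (inj Γ G w a)) v = toPi (inj Γ G w a) v
      by_cases hw : w ∈ S
      · rw [ret_inj_mem hw]
      · rw [ret_inj_not hw, map_one, Pi.one_apply, toPi_inj_ne]
        rintro rfl
        exact hw hv
    exact DFunLike.congr_fun this x
  · intro hv
    have : ((Pi.evalMonoidHom G v).comp toPi).comp (ret S) = (1 : GrP Γ G →* G v) := by
      apply gp_ext
      intro w a
      change toPi (ret S (inj Γ G w a)) v = 1
      by_cases hw : w ∈ S
      · rw [ret_inj_mem hw, toPi_inj_ne]
        rintro rfl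
        exact hv hw
      · rw [ret_inj_not hw, map_one, Pi.one_apply]
    exact DFunLike.congr_fun this x

/-- an element of a finite clique lies in the subgroup generated by the vertex groups of its support -/
theorem mem_supp (hR : S_RET) (hQ : S_CLQ) {V : Type} [Finite V] {Γ : SimpleGraph V} {G : V → Type}
    [∀ v, Group (G v)] {K : Set V} (hK : Γ.IsClique K) {x : GrP Γ G} (hx : x ∈ P Γ G K) :
    x ∈ P Γ G {v | toPi x v ≠ 1} := by
  have h1 := (hR V Γ G {v | toPi x v ≠ 1} K).2.2.1 x hx
  have h2 : ret {v | toPi x v ≠ 1} x ∈ P Γ G K := P_mono Set.inter_subset_right h1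
  have h3 : toPi (ret {v | toPi x v ≠ 1} x) = toPi x := by
    funext v
    by_cases hv : toPi x v = 1
    · rw [(toPi_ret _ x v).2 (by simpa using hv), hv]
    · exact (toPi_ret _ x v).1 hv
  have h4 := (hQ V Γ G K hK (Set.toFinite K)).1 _ h2 x hx h3
  rw [← h4]
  exact P_mono (by
    rw [h4]
    exact Set.inter_subset_left) h1

theorem t_UX (hR : S_RET) (hQ : S_CLQ) (hC : S_CE2) (hF : S_FAZ) : S_UX := by
  classical
  intro V _ Γ G _ c K hK hFA x hx z
  constructor
  · rintro ⟨y, hyx, rfl⟩ i hi v hv
    have hvK : v ∈ K := by
      by_contra h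
      exact hv ((hR V Γ G K ∅).2.2.2.2.2 x hx v h)
    have hsub : K ⊆ insert v (Γ.neighborSet v) := by
      intro w hw
      by_cases h : w = v
      · exact Or.inl h
      · exact Or.inr (hK hvK hw (Ne.symm h))
    have hy := hC V Γ G v x (P_mono hsub hx) hv y hyx
    have hyi : toPi y i.1 ≠ 1 := by
      intro h
      apply hi
      unfold xi
      rw [h, map_one]
      rfl
    have hmem : i.1 ∈ insert v (Γ.neighborSet v) := by
      by_contra h
      exact hyi ((hR V Γ G _ ∅).2.2.2.2.2 y hy i.1 h)
    rcases hmem with h | h
    · exfalso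
      apply hi
      have hfa : FA (G i.1) := by
        rw [h]
        exact hFA v hvK
      unfold xi
      have := hF (G i.1) hfa (c i).toMonoidHom (toPi y i.1)
      change (c i) (toPi y i.1) = 1 at this
      rw [this]
      rfl
    · exact h
  · intro h
    have : Fintype (VZ G) := Fintype.ofFinite _
    refine ⟨((Finset.univ : Finset (VZ G)).toList.map fun i =>
      inj Γ G i.1 ((c i).symm (Multiplicative.ofAdd (z i)))).prod, ?_, ?_⟩
    · apply Commute.list_prod_left
      intro w hw
      rw [List.mem_map] at hw
      obtain ⟨i, -, rfl⟩ := hw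
      by_cases hi : z i = 0
      · rw [hi, ofAdd_zero, map_one, map_one]
        exact Commute.one_left _
      · have hx' := mem_supp hR hQ hK hx
        have hle : P Γ G {v | toPi x v ≠ 1} ≤
            Subgroup.centralizer {inj Γ G i.1 ((c i).symm (Multiplicative.ofAdd (z i)))} := by
          rw [P_le]
          intro v hv a
          rw [Subgroup.mem_centralizer_singleton_iff]
          exact (inj_comm (h i hi v hv) _ _).eq
        have := hle hx'
        rw [Subgroup.mem_centralizer_singleton_iff] at this
        exact this.symm
    · funext i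
      unfold xi
      have e1 : toPi (((Finset.univ : Finset (VZ G)).toList.map fun i =>
          inj Γ G i.1 ((c i).symm (Multiplicative.ofAdd (z i)))).prod) i.1 =
          (c i).symm (Multiplicative.ofAdd (z i)) := by
        change ((Pi.evalMonoidHom G i.1).comp toPi) _ = _
        rw [map_list_prod, List.map_map, List.prod_map_eq_pow_single i]
        · have hc : ∀ (inst : DecidableEq (VZ G)),
              @List.count _ (@instBEqOfDecidableEq _ inst) i (Finset.univ : Finset (VZ G)).toList = 1 := by
            intro inst
            exact @List.count_eq_one_of_mem _ (@instBEqOfDecidableEq _ inst) (@instLawfulBEq _ inst) _ _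
              (Finset.nodup_toList _) (Finset.mem_toList.2 (Finset.mem_univ i))
          rw [hc, pow_one]
          exact toPi_inj_same (Γ := Γ) i.1 _
        · intro j hj _
          exact toPi_inj_ne (Γ := Γ) (fun hh => hj (Subtype.ext hh.symm)) _
      rw [e1, (c i).apply_symm_apply, toAdd_ofAdd]

end Pool.Agent.L0h3.GI
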